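import Pool.Agent.H886.FG.Sec
import Pool.Agent.H886.FG.Iso

/-!
# Birational sections over finitely generated function fields: few horizontal contacts

`K` is a field finitely generated over `ℚ` and `k` a subfield of the field of rational functions
`K(S) = RatFunc K` such that `K(S)` is finite over `k` (for example `k = K(S)`). `F` is the function
field of a curve over `k` with algebraic closure `Ω`, which contains `K(S)`, and `GalSection k F Ω B`
the type of the sections of `Gal(Ω/F) → Gal(B/k)`, where `B` is an algebraic closure of `k`.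

By the theorem of Koenigsmann, for each embedding of `K(S)` in the completion `L_v` of a number field
`L` at a finite place `v`, a section is given by a point of the curve over the completion (or a place
`P` of `Ω` above it). This is proved in the imported files and used in the proof.
-/

set_option autoImplicit false

namespace Pool.Agent.Results.MP_8312c9_nt.FunctionFieldsFewContacts

open IsDedekindDomain Polynomial
open Pool.Agent.TH954 (GalSection Plc)
open scoped NumberField

/-- `F` is a function field of one variable over `k` -/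
def OneVariable (k F : Type) [Field k] [Field F] [Algebra k F] : Prop :=
  ∃ t : F, Transcendental k t ∧ Algebra.IsAlgebraic (IntermediateField.adjoin k {t}) F

section defs

variable {k F Ω B : Type} [Field k] [Field F] [Field Ω] [Field B] [Algebra F Ω] [Algebra k Ω]
  [Algebra k B] (E : Type) [Field E] [Algebra E Ω]

/-- The element `y` of `Ω` is fixed by the image under the section `s` of the absolute Galois group
of the extension `E` of `k`. -/
def FixedOver (s : GalSection k F Ω B) (y : Ω) : Prop :=
  ∀ g : B ≃ₐ[k] B, (∀ z (r : E), s.j z = algebraMap E Ω r → g z = z) → s.s g y = y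

variable {E}

/-- The local points of the section `s` over an extension `L` of `E`: the places `P` of `Ω` over `E`
with values in the algebraic closure `A` of `L` that give `s` over `L`, that is, turn `s g` into `σ`
whenever `σ ∈ Gal(A/L)` and `g ∈ Gal(B/k)` are compatible on `B`. -/
def IsLocalPoint (s : GalSection k F Ω B) (L : Type) [Field L] [Algebra E L]
    (P : Plc E Ω (AlgebraicClosure L)) : Prop :=
  ∀ (σ : AlgebraicClosure L ≃ₐ[L] AlgebraicClosure L) (g : B ≃ₐ[k] B),
    (∀ z c, P.val (s.j z) c → P.val (s.j (g z)) (σ c)) →
    ∀ y c, P.val y c → P.val (s.s g y) (σ c)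

/-- For the local points of `s` over `L`, as extension of `E` along `φ`, the element `y` has neither
a zero nor a pole, and its value `x ∈ L` (which is in `L` if `y` is fixed over `E`) has the property
`p`. -/
def Values (s : GalSection k F Ω B) (y : Ω) {L : Type} [Field L] (φ : E →+* L) (p : L → Prop) :
    Prop :=
  letI := φ.toAlgebra
  ∀ P : Plc E Ω (AlgebraicClosure L), IsLocalPoint s L P →
    y ∈ P.W ∧ y⁻¹ ∈ P.W ∧ ∀ x : L, P.val y (algebraMap L (AlgebraicClosure L) x) → p x

/-- nonzero values -/
theorem values_eq (s : GalSection k F Ω B) (y : Ω) {L : Type} [Field L] (φ : E →+* L) (z : L)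
    (hz : z ≠ 0) (h : letI := φ.toAlgebra
      ∀ P : Plc E Ω (AlgebraicClosure L), IsLocalPoint s L P →
        P.val y (algebraMap L (AlgebraicClosure L) z)) : Values s y φ fun x => x = z := by
  let _ := φ.toAlgebra
  intro P hP
  have h1 := h P hP
  have h2 := h1.inv ((_root_.map_ne_zero _).2 hz)
  exact ⟨h1.mem, h2.mem, fun x hx => (algebraMap L (AlgebraicClosure L)).injective (hx.unique h1)⟩

variable (E)

/-- no local point of `s` over the completions of number fields is a zero or a pole of `y` -/
def NoZeroPole (s : GalSection k F Ω B) (y : Ω) : Prop :=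
  ∀ (L : Type) [Field L] [NumberField L] (v : HeightOneSpectrum (𝓞 L))
    (φ : E →+* v.adicCompletion L), Values s y φ fun _ => True

variable (K : Type) [Field K] [Algebra (RatFunc K) Ω]

/-- The section has no contact with the zeros and poles of `y` near the closed point `π = 0` of the
line over `K`: for one embedding `ψ : K → L_v` and one root `θ ∈ L_v` of `π`, the values of `y` at the
local points of `s` are uniformly bounded and bounded away from zero, for all extensions
`φ : K(S) → L_v` of `ψ` with `φ(S)` near `θ`. -/
def NoContact (s : GalSection k F Ω B) (y : Ω) (π : K[X]) : Prop :=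
  ∃ (L : Type) (_ : Field L) (_ : NumberField L) (v : HeightOneSpectrum (𝓞 L))
    (ψ : K →+* v.adicCompletion L) (θ : v.adicCompletion L) (r C : ℝ),
    (π.map ψ).eval θ = 0 ∧ 0 < r ∧ ∀ φ : RatFunc K →+* v.adicCompletion L,
      φ.comp (algebraMap K (RatFunc K)) = ψ → ‖φ RatFunc.X - θ‖ < r →
      Values s y φ fun x => C⁻¹ ≤ ‖x‖ ∧ ‖x‖ ≤ C

/-- The section has contact with the zeros and poles of `y` near finitely many closed points of the
line over `K` only. -/
def FewContacts (s : GalSection k F Ω B) (y : Ω) : Prop :=
  {π : K[X] | Irreducible π ∧ π.Monic ∧ ¬ NoContact K s y π}.Finite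

/-- The values in `L_v` of the element `y` at the local points of `s` only depend on the embedding
`K → L_v`, and not on the image of `S`. -/
def ConstantValues (s : GalSection k F Ω B) (y : Ω) : Prop :=
  ∀ (L : Type) [Field L] [NumberField L] (v : HeightOneSpectrum (𝓞 L))
    (ψ : K →+* v.adicCompletion L), ∃ z : v.adicCompletion L,
    ∀ φ : RatFunc K →+* v.adicCompletion L, φ.comp (algebraMap K (RatFunc K)) = ψ →
      Values s y φ fun x => x = z

/-- `S` is transcendental over the field `K(y a : a)`, so that the `y a` are functions on a curve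
defined over `K` -/
def FromConstantCurve [Algebra K Ω] {ι : Type} (y : ι → Ω) : Prop :=
  Transcendental (IntermediateField.adjoin K (Set.range y)) (algebraMap (RatFunc K) Ω RatFunc.X)

/-- Among the `y a` are `f - θ 0`, `f - θ 1` and `f - θ 2` where `f` is transcendental over `k` and
`(θ 2 - θ 0) / (θ 1 - θ 0)` is in `K(S)` but not in `K`. -/
def ThreeFunctions (k : Type) [Field k] [Algebra k Ω] {ι : Type} (y : ι → Ω) : Prop :=
  ∃ (f : Ω) (θ : Fin 3 → RatFunc K), Transcendental k f ∧
    (∀ i, ∃ a, y a = f - algebraMap (RatFunc K) Ω (θ i)) ∧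
    ∀ q : K, (θ 2 - θ 0) / (θ 1 - θ 0) ≠ algebraMap K (RatFunc K) q

end defs

/-- Let `K(S)` be finite over `k`, let `F` be a function field of one variable over `k`, and `s` a
section of `Gal(Ω/F) → Gal(B/k)`. Let `y a` be finitely many nonzero elements of `Ω` (elements of `F`,
or functions on coverings of the curve which the section lifts to) fixed by the image of the absolute
Galois group of `K(S)`, with no zeros and poles at the local points of `s` and few contacts.

Then there are nonzero rational functions `c a ∈ K(S)` such that the values of `y a / c a` at the local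
points do not depend on the image of `S`. Moreover `s` arises from exactly one rational point, or the
`y a / c a` are functions on a curve defined over `K`. In particular, `s` arises from exactly one
rational point if `f - θ 0`, `f - θ 1` and `f - θ 2` are among the `y a`, where `f` is not constant
and `(θ 2 - θ 0) / (θ 1 - θ 0)` is in `K(S)` but not in `K`. -/
theorem result (k K F Ω B : Type) [Field k] [CharZero k] [Algebra.EssFiniteType ℚ k] [Field K]
    [CharZero K] [Algebra.EssFiniteType ℚ K] [Field F] [Field Ω] [Field B]
    [Algebra k F] [Algebra F Ω] [Algebra k Ω] [Algebra k B] [IsScalarTower k F Ω]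
    [IsAlgClosure F Ω] [IsAlgClosure k B] [Algebra k (RatFunc K)] [Module.Finite k (RatFunc K)]
    [Algebra (RatFunc K) Ω] [IsScalarTower k (RatFunc K) Ω] [Algebra K Ω]
    [IsScalarTower K (RatFunc K) Ω] (hF : OneVariable k F) (s : GalSection k F Ω B)
    {ι : Type} [Finite ι] (y : ι → Ω) (nonzero : ∀ a, y a ≠ 0)
    (fixed : ∀ a, FixedOver (RatFunc K) s (y a)) (noZeroPole : ∀ a, NoZeroPole (RatFunc K) s (y a))
    (few : ∀ a, FewContacts K s (y a)) :
    (∃ c : ι → RatFunc K, (∀ a, c a ≠ 0) ∧
      (∀ a, ConstantValues K s (y a / algebraMap (RatFunc K) Ω (c a))) ∧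
      ((∃! O : ValuationSubring F, s.ArisesFrom O) ∨
        FromConstantCurve K fun a => y a / algebraMap (RatFunc K) Ω (c a))) ∧
    (ThreeFunctions K k y → ∃! O : ValuationSubring F, s.ArisesFrom O) := by
  obtain ⟨c, z, hc, hz, hv, h⟩ := Pool.Agent.H886.FG.sec_main hF s y nonzero fixed
    (fun a i P hP => ⟨(noZeroPole a i.L i.v i.φ P hP).1, (noZeroPole a i.L i.v i.φ P hP).2.1⟩) (by
    intro a
    refine (few a).subset fun π hπ => ⟨hπ.1, hπ.2.1, fun h => hπ.2.2 ?_⟩
    obtain ⟨L, _, _, v, ψ, θ, r, C, h1, h2, h3⟩ := h
    refine ⟨⟨L, v, ψ⟩, θ, r, C, h1, h2, fun φ hφ hlt P hP x hx => ?_⟩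
    exact (h3 φ (RingHom.ext hφ) hlt P hP).2.2 x hx)
  have key : (∃! O : ValuationSubring F, s.ArisesFrom O) ∨
        Transcendental (IntermediateField.adjoin K
          (Set.range fun a => y a / algebraMap (RatFunc K) Ω (c a)))
          (algebraMap (RatFunc K) Ω RatFunc.X) := by
    by_cases halg : IsAlgebraic (Algebra.adjoin K (Set.range fun a =>
        y a / algebraMap (RatFunc K) Ω (c a))) (algebraMap (RatFunc K) Ω RatFunc.X)
    · exact Or.inl (h halg)
    · right
      intro h1
      exact halg (IntermediateField.isAlgebraic_adjoin_iff.1 h1)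
  refine ⟨⟨c, hc, fun a L _ _ v ψ => ⟨z a ⟨L, v, ψ⟩, fun φ hφ P hP => ?_⟩, key⟩,
    fun ⟨f, θ, hf, hθ, hq⟩ => ?_⟩
  · subst hφ
    exact values_eq s _ φ _ (hz a _) (fun P hP => hv a ⟨L, v, φ⟩ P hP) P hP
  rcases key with h1 | h1
  · exact h1
  · exfalso
    choose a ha using hθ
    obtain ⟨q, hq'⟩ := Pool.Agent.H886.FG.iso_three _ h1 f (fun r hr => hf (by
      rw [hr]
      exact (Algebra.IsAlgebraic.isAlgebraic (R := k) r).algebraMap)) θ (fun i => c (a i))
      (fun i => hc _) (fun i => by
        rw [← ha]
        exact IntermediateField.subset_adjoin _ _ ⟨a i, rfl⟩)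
    exact hq q hq'

end Pool.Agent.Results.MP_8312c9_nt.FunctionFieldsFewContacts
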