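import Pool.Agent.H886.SB.Ex

/-!
# Birational sections over number fields with one exceptional archimedean place

`K` is a number field all of whose archimedean places are real except possibly one, called `v0` (for
example a number field with exactly one complex place, or a totally real field with one real place
singled out), and `F` the function field of a curve over `K` with algebraic closure `Ω`.
`GalSection K F Ω B` is the type of the sections of `Gal(Ω/F) → Gal(B/K)`, where `B` is an algebraic
closure of `K`.

By the theorem of Koenigsmann, over each completion `K_v` a section is given by a point of the curve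
(or a place `P` of `Ω` above it); for the real completions this is an easy consequence of the theory
of real closed fields. Both facts are proved in the imported files and used in the proof.
-/

set_option autoImplicit false

namespace Pool.Agent.Results.MP_8312c9_nt.OneFunctionOneComplexPlace

open IsDedekindDomain
open Pool.Agent.TH954 (GalSection Plc)
open scoped NumberField

section defs

variable {K F Ω B : Type} [Field K] [Field F] [Field Ω] [Field B] [Algebra K F]
  [Algebra F Ω] [Algebra K Ω] [Algebra K B]

/-- `F` is a function field of one variable over `K` -/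
def OneVariable (K F : Type) [Field K] [Field F] [Algebra K F] : Prop :=
  ∃ t : F, Transcendental K t ∧ Algebra.IsAlgebraic (IntermediateField.adjoin K {t}) F

/-- The local points of the section `s` over the extension `L` of `K`: the places `P` of `Ω` over `K`
with values in the algebraic closure `A` of `L` that give `s` over `L`, that is, turn `s g` into `σ`
whenever `σ ∈ Gal(A/L)` and `g ∈ Gal(B/K)` are compatible on `B`. -/
def IsLocalPoint (s : GalSection K F Ω B) (L : Type) [Field L] [Algebra K L]
    (P : Plc K Ω (AlgebraicClosure L)) : Prop :=
  ∀ (σ : AlgebraicClosure L ≃ₐ[L] AlgebraicClosure L) (g : B ≃ₐ[K] B),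
    (∀ z c, P.val (s.j z) c → P.val (s.j (g z)) (σ c)) →
    ∀ y c, P.val y c → P.val (s.s g y) (σ c)

/-- no local point of `s` over `L` is a pole of `f` -/
def NoPole (s : GalSection K F Ω B) (L : Type) [Field L] [Algebra K L] (f : F) : Prop :=
  ∀ P : Plc K Ω (AlgebraicClosure L), IsLocalPoint s L P → algebraMap F Ω f ∈ P.W

/-- The local points of `s` are in contact with few poles of `f`: there is a positive `N` such that,
for almost all places `v` of the number field `K`, the order of the value `x ∈ K_v` of `f` at a local
point of `s` over `K_v` is not a negative multiple of `N`. For example, `x` is integral, or its order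
is at least `1 - N`. -/
def FewPoles [NumberField K] (s : GalSection K F Ω B) (f : F) : Prop :=
  ∃ N : ℕ, 0 < N ∧ ∀ᶠ v : HeightOneSpectrum (𝓞 K) in Filter.cofinite,
    ∀ P : Plc K Ω (AlgebraicClosure (v.adicCompletion K)),
      IsLocalPoint s (v.adicCompletion K) P → ∀ x : v.adicCompletion K,
        P.val (algebraMap F Ω f) (algebraMap _ _ x) →
        ∀ k : ℤ, 0 < k → Valued.v x ≠ WithZero.exp ((N : ℤ) * k)

end defs

/-- Let `K` be a number field whose archimedean places, except possibly `v0`, are real, and `s` a
section of `Gal(Ω/F) → Gal(B/K)`, where `F` is a function field of one variable over `K`. Let `f` be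
a non-constant function such that no local point of `s` is a zero or a pole of `f`, over no completion
of `K` except possibly that at `v0`, and that the local points are in contact with few zeros and poles
of `f` (for example, the values of `f` at the local points are units at almost all places). Then `s`
arises from exactly one rational point. At this point `f` has a value `ξ ∈ K`, and this is the value
of `f` at all local points of `s` over the completions at finite places. -/
theorem result (K F Ω B : Type) [Field K] [NumberField K] (v0 : NumberField.InfinitePlace K)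
    (hK : ∀ v : NumberField.InfinitePlace K, v ≠ v0 → v.IsReal) [Field F] [Field Ω] [Field B]
    [Algebra K F] [Algebra F Ω] [Algebra K Ω] [IsScalarTower K F Ω] [IsAlgClosure F Ω]
    [Algebra K B] [IsAlgClosure K B] (hF : OneVariable K F) (s : GalSection K F Ω B)
    (f : F) (hf : Transcendental K f)
    (finite : ∀ v : HeightOneSpectrum (𝓞 K),
      NoPole s (v.adicCompletion K) f ∧ NoPole s (v.adicCompletion K) f⁻¹)
    (real : ∀ v : NumberField.InfinitePlace K, v ≠ v0 →
      NoPole s v.Completion f ∧ NoPole s v.Completion f⁻¹)
    (few : FewPoles s f ∧ FewPoles s f⁻¹) :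
    ∃ (ξ : K) (O : ValuationSubring F), O.valuation (f - algebraMap K F ξ) < 1 ∧
      (∀ O' : ValuationSubring F, s.ArisesFrom O' ↔ O' = O) ∧
      ∀ (v : HeightOneSpectrum (𝓞 K)) (P : Plc K Ω (AlgebraicClosure (v.adicCompletion K))),
        IsLocalPoint s (v.adicCompletion K) P →
        P.val (algebraMap F Ω f) (algebraMap (v.adicCompletion K) _ (algebraMap K _ ξ)) := by
  have hΩ1 : IsAlgClosed Ω := IsAlgClosure.isAlgClosed F
  obtain ⟨t, ht, hFt⟩ := hF
  have hFf := Pool.Agent.H886.Exp.alg_exchange ht hFt hf
  obtain ⟨⟨N, hN, hfew⟩, N', hN', hfew'⟩ := few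
  have hf0 : f ≠ 0 := by
    rintro rfl
    exact hf isAlgebraic_zero
  obtain ⟨ξ, h1, O, h2, h3⟩ := Pool.Agent.H886.SB.all_points s f (fun v => (finite v).1) (by
    intro pl hpl X hX
    choose pr hpr using fun (v : NumberField.InfinitePlace K) (hv : v ≠ v0) =>
      Pool.Agent.H886.SB.exists_real_point s (hK v hv)
    have hcv : ∀ v : NumberField.InfinitePlace K, CharZero v.Completion := fun v =>
      charZero_of_injective_algebraMap (algebraMap K v.Completion).injective
    choose r hr using fun (v : NumberField.InfinitePlace K) (hv : v ≠ v0) =>
      Pool.Agent.H886.SB.val_rational s (pr v hv) (hpr v hv)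
        ((real v hv).1 (pr v hv) (hpr v hv))
    -- the values are not zero
    have hne : ∀ {L : Type} [Field L] [Algebra K L] (P : Plc K Ω (AlgebraicClosure L)) (x : L),
        P.val (algebraMap F Ω f) (algebraMap L _ x) → algebraMap F Ω f⁻¹ ∈ P.W → x ≠ 0 := by
      intro L _ _ P x hx hm h0
      rw [h0, map_zero] at hx
      refine Plc.notMem_of_val_inv (pl := P) (x := algebraMap F Ω f⁻¹) ?_ ?_ hm
      · exact (map_ne_zero _).2 (inv_ne_zero hf0)
      · rw [map_inv₀, inv_inv]
        exact hx
    have hinv : ∀ {L : Type} [Field L] [Algebra K L] (P : Plc K Ω (AlgebraicClosure L)) (x : L),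
        P.val (algebraMap F Ω f) (algebraMap L _ x) → algebraMap F Ω f⁻¹ ∈ P.W →
        P.val (algebraMap F Ω f⁻¹) (algebraMap L _ x⁻¹) := by
      intro L _ _ P x hx hm
      have hx0 := hne P x hx hm
      obtain ⟨d, hd⟩ := Plc.val_of_mem hm
      have h1 := hx.mul hd
      rw [← map_mul, mul_inv_cancel₀ hf0, map_one] at h1
      have h2 := h1.unique Plc.val_one
      have h3 : algebraMap L (AlgebraicClosure L) x ≠ 0 := (map_ne_zero _).2 hx0
      have h4 : algebraMap L (AlgebraicClosure L) x⁻¹ = d := by
        rw [map_inv₀]
        exact inv_eq_of_mul_eq_one_right h2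
      rw [h4]
      exact hd
    exact Pool.Agent.H886.SB.bir_one v0 hK s f hf hFf pl hpl X hX
      (fun v => hne (pl v) (X v) (hX v) ((finite v).2 (pl v) (hpl v))) N hN
      (hfew.mono fun v hv => hv (pl v) (hpl v) (X v) (hX v)) N' hN'
      (hfew'.mono fun v hv => hv (pl v) (hpl v) (X v)⁻¹
        (hinv (pl v) (X v) (hX v) ((finite v).2 (pl v) (hpl v)))) pr hpr r hr
      (fun v hv => hne (pr v hv) (r v hv) (hr v hv) ((real v hv).2 (pr v hv) (hpr v hv))))
  exact ⟨ξ, O, h2, h3, h1⟩

end Pool.Agent.Results.MP_8312c9_nt.OneFunctionOneComplexPlace
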