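import Pool.Agent.H886.SB.ExTwo

/-!
# Birational sections over number fields with at most two archimedean places

`K` is a number field with at most two archimedean places: `ℚ`, a quadratic field, a cubic field that
is not totally real, or a totally complex quartic field. `F` is the function field of a curve over `K`
with algebraic closure `Ω`, and `GalSection K F Ω B` the type of the sections of
`Gal(Ω/F) → Gal(B/K)`, where `B` is an algebraic closure of `K`.

By the theorem of Koenigsmann, over each completion `K_v` a section is given by a point of the curve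
(or a place `P` of `Ω` above it). This is proved in the imported files and used in the proof.
-/

set_option autoImplicit false

namespace Pool.Agent.Results.MP_8312c9_nt.TwoFunctionsTwoPlaces

open IsDedekindDomain
open Pool.Agent.TH954 (GalSection Plc)
open scoped NumberField

section defs

variable {K F Ω B : Type} [Field K] [Field F] [Field Ω] [Field B] [Algebra K F]
  [Algebra F Ω] [Algebra K Ω] [Algebra K B]

/-- `F` is a function field of one variable over `K` -/
def OneVariable (K F : Type) [Field K] [Field F] [Algebra K F] : Prop :=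
  ∃ t : F, Transcendental K t ∧ Algebra.IsAlgebraic (IntermediateField.adjoin K {t}) F

/-- The local points of the section `s` over the extension `L` of `K`: the places `P` of `Ω` over `K`
with values in the algebraic closure `A` of `L` that give `s` over `L`, that is, turn `s g` into `σ`
whenever `σ ∈ Gal(A/L)` and `g ∈ Gal(B/K)` are compatible on `B`. -/
def IsLocalPoint (s : GalSection K F Ω B) (L : Type) [Field L] [Algebra K L]
    (P : Plc K Ω (AlgebraicClosure L)) : Prop :=
  ∀ (σ : AlgebraicClosure L ≃ₐ[L] AlgebraicClosure L) (g : B ≃ₐ[K] B),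
    (∀ z c, P.val (s.j z) c → P.val (s.j (g z)) (σ c)) →
    ∀ y c, P.val y c → P.val (s.s g y) (σ c)

/-- no local point of `s` over `L` is a pole of `f` -/
def NoPole (s : GalSection K F Ω B) (L : Type) [Field L] [Algebra K L] (f : F) : Prop :=
  ∀ P : Plc K Ω (AlgebraicClosure L), IsLocalPoint s L P → algebraMap F Ω f ∈ P.W

/-- The local points of `s` are in contact with few poles of `f`: there is a positive `N` such that,
for almost all places `v` of the number field `K`, the order of the value `x ∈ K_v` of `f` at a local
point of `s` over `K_v` is not a negative multiple of `N`. For example, `x` is integral, or its order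
is at least `1 - N`. -/
def FewPoles [NumberField K] (s : GalSection K F Ω B) (f : F) : Prop :=
  ∃ N : ℕ, 0 < N ∧ ∀ᶠ v : HeightOneSpectrum (𝓞 K) in Filter.cofinite,
    ∀ P : Plc K Ω (AlgebraicClosure (v.adicCompletion K)),
      IsLocalPoint s (v.adicCompletion K) P → ∀ x : v.adicCompletion K,
        P.val (algebraMap F Ω f) (algebraMap _ _ x) →
        ∀ k : ℤ, 0 < k → Valued.v x ≠ WithZero.exp ((N : ℤ) * k)

/-- `f` is almost a unit at the local points of `s` over the completions `K_v` at the finite places:
it has no zero or pole at them, and they are in contact with few zeros and poles of `f` -/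
def AlmostUnit [NumberField K] (s : GalSection K F Ω B) (f : F) : Prop :=
  (∀ v : HeightOneSpectrum (𝓞 K),
    NoPole s (v.adicCompletion K) f ∧ NoPole s (v.adicCompletion K) f⁻¹) ∧
  FewPoles s f ∧ FewPoles s f⁻¹

end defs

section lemmas

variable {K F Ω B : Type} [Field K] [Field F] [Field Ω] [Field B] [Algebra K F]
  [Algebra F Ω] [Algebra K Ω] [Algebra K B]

theorem ne_zero {f : F} (hf0 : f ≠ 0) {L : Type} [Field L] [Algebra K L]
    (P : Plc K Ω (AlgebraicClosure L)) (x : L)
    (hx : P.val (algebraMap F Ω f) (algebraMap L _ x)) (hm : algebraMap F Ω f⁻¹ ∈ P.W) :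
    x ≠ 0 := by
  intro h0
  rw [h0, map_zero] at hx
  refine Plc.notMem_of_val_inv (pl := P) (x := algebraMap F Ω f⁻¹) ?_ ?_ hm
  · exact (map_ne_zero _).2 (inv_ne_zero hf0)
  · rw [map_inv₀, inv_inv]
    exact hx

theorem val_inv {f : F} (hf0 : f ≠ 0) {L : Type} [Field L] [Algebra K L]
    (P : Plc K Ω (AlgebraicClosure L)) (x : L)
    (hx : P.val (algebraMap F Ω f) (algebraMap L _ x)) (hm : algebraMap F Ω f⁻¹ ∈ P.W) :
    P.val (algebraMap F Ω f⁻¹) (algebraMap L _ x⁻¹) := by
  have hx0 := ne_zero hf0 P x hx hm
  obtain ⟨d, hd⟩ := Plc.val_of_mem hm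
  have h1 := hx.mul hd
  rw [← map_mul, mul_inv_cancel₀ hf0, map_one] at h1
  have h2 := h1.unique Plc.val_one
  have h3 : algebraMap L (AlgebraicClosure L) x ≠ 0 := (map_ne_zero _).2 hx0
  have h4 : algebraMap L (AlgebraicClosure L) x⁻¹ = d := by
    rw [map_inv₀]
    exact inv_eq_of_mul_eq_one_right h2
  rw [h4]
  exact hd

/-- few zeros and poles -/
theorem few [NumberField K] {s : GalSection K F Ω B} {f : F} (hf0 : f ≠ 0)
    (h : AlmostUnit s f) : ∃ N : ℕ, 0 < N ∧ ∀ M : ℕ, N ∣ M →
      ∀ᶠ v : HeightOneSpectrum (𝓞 K) in Filter.cofinite,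
        ∀ P : Plc K Ω (AlgebraicClosure (v.adicCompletion K)),
          IsLocalPoint s (v.adicCompletion K) P → ∀ x : v.adicCompletion K,
          P.val (algebraMap F Ω f) (algebraMap _ _ x) →
          ∀ k : ℤ, Valued.v x = WithZero.exp ((M : ℤ) * k) → (M : ℤ) * k = 0 := by
  obtain ⟨h1, ⟨N, hN, h2⟩, N', hN', h3⟩ := h
  refine ⟨N * N', Nat.mul_pos hN hN', fun M hM => ?_⟩
  obtain ⟨m, rfl⟩ := hM
  filter_upwards [h2, h3] with v hv hv' P hP x hx k hk
  rcases lt_trichotomy ((((N * N' * m : ℕ) : ℤ)) * k) 0 with h | h | h
  · exfalso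
    refine hv' P hP x⁻¹ (val_inv hf0 P x hx ((h1 v).2 P hP)) (-(N * m * k)) ?_ ?_
    · have h4 : (0 : ℤ) < N' := by exact_mod_cast hN'
      have h5 : (N' : ℤ) * (N * m * k) < 0 := by
        push_cast at h
        linarith
      have h6 : (N : ℤ) * m * k < 0 := by
        by_contra h7
        push Not at h7
        exact absurd (mul_nonneg h4.le h7) (not_le.2 h5)
      linarith
    · rw [map_inv₀, hk, ← WithZero.exp_neg]
      congr 1
      push_cast
      ring
  · exact h
  · exfalso
    refine hv P hP x hx (N' * m * k) ?_ ?_
    · have h4 : (0 : ℤ) < N := by exact_mod_cast hN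
      have h5 : 0 < (N : ℤ) * (N' * m * k) := by
        push_cast at h
        linarith
      by_contra h7
      push Not at h7
      exact absurd (mul_nonpos_of_nonneg_of_nonpos h4.le h7) (not_le.2 h5)
    · rw [hk]
      congr 1
      push_cast
      ring

end lemmas

/-- Let `K` be a number field with at most two archimedean places, `F` a function field of one
variable over `K`, and `s` a section of `Gal(Ω/F) → Gal(B/K)`. Let `f` and `g` be elements of `F` that
are multiplicatively independent modulo constants and almost units at the local points of `s` over the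
completions of `K` at the finite places (for example, they have no zeros and poles at the local
points, and their values are units at almost all places). Then `s` arises from exactly one rational
point. At this point `f` and `g` have values `ξ` and `η` in `K`, and these are their values at all
local points of `s` over the completions at finite places. -/
theorem result (K F Ω B : Type) [Field K] [NumberField K]
    (hK : Fintype.card (NumberField.InfinitePlace K) ≤ 2) [Field F] [Field Ω] [Field B]
    [Algebra K F] [Algebra F Ω] [Algebra K Ω] [IsScalarTower K F Ω] [IsAlgClosure F Ω]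
    [Algebra K B] [IsAlgClosure K B] (hF : OneVariable K F) (s : GalSection K F Ω B)
    (f g : F) (independent : ∀ a b : ℤ, (a ≠ 0 ∨ b ≠ 0) → Transcendental K (f ^ a * g ^ b))
    (hf : AlmostUnit s f) (hg : AlmostUnit s g) :
    ∃ (ξ η : K) (O : ValuationSubring F), O.valuation (f - algebraMap K F ξ) < 1 ∧
      O.valuation (g - algebraMap K F η) < 1 ∧
      (∀ O' : ValuationSubring F, s.ArisesFrom O' ↔ O' = O) ∧
      ∀ (v : HeightOneSpectrum (𝓞 K)) (P : Plc K Ω (AlgebraicClosure (v.adicCompletion K))),
        IsLocalPoint s (v.adicCompletion K) P →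
        P.val (algebraMap F Ω f) (algebraMap (v.adicCompletion K) _ (algebraMap K _ ξ)) ∧
        P.val (algebraMap F Ω g) (algebraMap (v.adicCompletion K) _ (algebraMap K _ η)) := by
  obtain ⟨t, ht, hFt⟩ := hF
  have htf : Transcendental K f := by
    have := independent 1 0 (Or.inl one_ne_zero)
    simpa using this
  have htg : Transcendental K g := by
    have := independent 0 1 (Or.inr one_ne_zero)
    simpa using this
  have hFf := Pool.Agent.H886.Exp.alg_exchange ht hFt htf
  have hf0 : f ≠ 0 := by
    rintro rfl
    exact htf isAlgebraic_zero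
  have hg0 : g ≠ 0 := by
    rintro rfl
    exact htg isAlgebraic_zero
  obtain ⟨N, hN, hfewf⟩ := few hf0 hf
  obtain ⟨N', hN', hfewg⟩ := few hg0 hg
  obtain ⟨ξ, h1, O, h2, h3⟩ := Pool.Agent.H886.SB.all_points_n s (fun i : Fin 2 => ![f, g] i) (by
    intro i
    fin_cases i
    · exact fun v => (hf.1 v).1
    · exact fun v => (hg.1 v).1) (by
    intro pl hpl X hX
    obtain ⟨ξ, -, hξ, hO⟩ := Pool.Agent.H886.Exp.two_bir hK s (fun i : Fin 2 => ![f, g] i) (by
      intro i
      fin_cases i
      · exact hf0
      · exact hg0) 0 1 independent hFf pl hpl X hX (by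
      intro v i
      fin_cases i
      · exact ne_zero hf0 (pl v) (X v 0) (hX v 0) ((hf.1 v).2 (pl v) (hpl v))
      · exact ne_zero hg0 (pl v) (X v 1) (hX v 1) ((hg.1 v).2 (pl v) (hpl v)))
      (N * N') (Nat.mul_pos hN hN') (by
        have hM : ((N * N' : ℕ) : ℤ) ≠ 0 := by
          exact_mod_cast (Nat.mul_pos hN hN').ne'
        filter_upwards [hfewf (N * N') (Dvd.intro _ rfl),
          hfewg (N * N') (Dvd.intro_left _ rfl)] with v hv hv' i k hk
        fin_cases i
        · exact (mul_eq_zero.1 (hv (pl v) (hpl v) (X v 0) (hX v 0) k hk)).resolve_left hM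
        · exact (mul_eq_zero.1 (hv' (pl v) (hpl v) (X v 1) (hX v 1) k hk)).resolve_left hM)
    exact ⟨ξ, hξ, hO⟩)
  exact ⟨ξ 0, ξ 1, O, h2 0, h2 1, h3, fun v P hP => ⟨h1 0 v P hP, h1 1 v P hP⟩⟩

end Pool.Agent.Results.MP_8312c9_nt.TwoFunctionsTwoPlaces
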